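import Pool.Agent.Helper92.LV.Stmts
import Pool.Agent.Helper42.LK.KLB

open Filter Topology NumberField

namespace Pool.Agent.Helper92.LV

open Pool.Agent.Helper42.LS Pool.Agent.Helper42.LK Pool.Agent.Helper54.LS

/-- logarithm of `max (|a|, 1)` -/
noncomputable def klb2_lg {F : Type} [Field F] (v : DV F) (a : F) : ℝ :=
  Real.log (max (v.nr a) 1)

lemma klb2_pos {F : Type} [Field F] (v : DV F) (a : F) : 0 < max (v.nr a) 1 :=
  lt_of_lt_of_le one_pos (le_max_right _ _)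

lemma klb2_lg_mul {F : Type} [Field F] (v : DV F) (a b : F) :
    klb2_lg v (a * b) ≤ klb2_lg v a + klb2_lg v b := by
  unfold klb2_lg
  rw [← Real.log_mul (klb2_pos v a).ne' (klb2_pos v b).ne']
  refine Real.log_le_log (klb2_pos v _) ?_
  rw [v.nr_mul]
  apply max_le
  · exact mul_le_mul (le_max_left _ _) (le_max_left _ _) (v.nr_nonneg _) (klb2_pos v a).le
  · exact one_le_mul_of_one_le_of_one_le (le_max_right _ _) (le_max_right _ _)

lemma klb2_lg_add {F : Type} [Field F] (v : DV F) (a b : F) :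
    klb2_lg v (a + b) ≤ klb2_lg v a + klb2_lg v b := by
  unfold klb2_lg
  rw [← Real.log_mul (klb2_pos v a).ne' (klb2_pos v b).ne']
  refine Real.log_le_log (klb2_pos v _) ?_
  apply max_le
  · refine (v.nr_add_le a b).trans (max_le ?_ ?_)
    · calc v.nr a ≤ max (v.nr a) 1 := le_max_left _ _
        _ = max (v.nr a) 1 * 1 := (mul_one _).symm
        _ ≤ _ := mul_le_mul_of_nonneg_left (le_max_right _ _) (klb2_pos v a).le
    · calc v.nr b ≤ max (v.nr b) 1 := le_max_left _ _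
        _ = 1 * max (v.nr b) 1 := (one_mul _).symm
        _ ≤ _ := mul_le_mul_of_nonneg_right (le_max_right _ _) (klb2_pos v b).le
  · exact one_le_mul_of_one_le_of_one_le (le_max_right _ _) (le_max_right _ _)

lemma klb2_lg_neg {F : Type} [Field F] (v : DV F) (a : F) : klb2_lg v (-a) = klb2_lg v a := by
  unfold klb2_lg
  rw [v.nr_neg]

/-- change by an affine map -/
lemma klb2_affine {F : Type} [Field F] (v : DV F) (x₀ ρ : F) (hρ : ρ ≠ 0) (X : F) :
    |klb2_lg v ((X - x₀) * ρ) - klb2_lg v X| ≤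
      klb2_lg v ρ + klb2_lg v ρ⁻¹ + klb2_lg v x₀ := by
  have h0 : ∀ a : F, 0 ≤ klb2_lg v a := fun a => Real.log_nonneg (le_max_right _ _)
  have h1 : klb2_lg v ((X - x₀) * ρ) ≤ klb2_lg v X + klb2_lg v x₀ + klb2_lg v ρ := by
    have h2 := klb2_lg_mul v (X - x₀) ρ
    have h3 := klb2_lg_add v X (-x₀)
    rw [klb2_lg_neg, ← sub_eq_add_neg] at h3
    linarith
  have h4 : klb2_lg v X ≤ klb2_lg v ((X - x₀) * ρ) + klb2_lg v ρ⁻¹ + klb2_lg v x₀ := by
    have h5 := klb2_lg_mul v ((X - x₀) * ρ) ρ⁻¹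
    rw [mul_inv_cancel_right₀ hρ] at h5
    have h6 := klb2_lg_add v (X - x₀) x₀
    rw [sub_add_cancel] at h6
    linarith
  rw [abs_le]
  constructor
  · have := h0 ρ; linarith
  · have := h0 ρ⁻¹; linarith

lemma klb2_scale {F : Type} [Field F] (v : DV F) (w : F) (hw : w ≠ 0) (X : F) :
    |klb2_lg v (w * X) - klb2_lg v X| ≤ klb2_lg v w + klb2_lg v w⁻¹ := by
  have h0 : ∀ a : F, 0 ≤ klb2_lg v a := fun a => Real.log_nonneg (le_max_right _ _)
  have h1 := klb2_lg_mul v w X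
  have h2 := klb2_lg_mul v w⁻¹ (w * X)
  rw [inv_mul_cancel_left₀ hw] at h2
  rw [abs_le]
  constructor
  · have := h0 w; linarith
  · have := h0 w⁻¹; linarith

lemma klb2_B2 (t : ℝ) : |B2 t - 1 / 6| ≤ 1 := by
  unfold B2
  have h1 := Int.fract_nonneg t
  have h2 := (Int.fract_lt_one t).le
  rw [abs_le]
  constructor <;> nlinarith

/-- reindexing -/
lemma klb2_QC {g : ℕ → ℝ} (h : QC 0 g) : QC 0 (fun k => g (12 * k)) where
  nonneg k hk := h.nonneg _ (by omega)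
  add k l hk hl := by
    have := h.add (12 * k) (12 * l) (by omega) (by omega)
    rw [← mul_add] at this
    exact this
  sub k l hl hlk := by
    have := h.sub (12 * k) (12 * l) (by omega) (by omega)
    rw [← Nat.mul_sub] at this
    exact this

theorem st_KLB2 (hQC : ST_QCI) (hPM : ST_KPM2) (hPG : ST_KPG2) (hAD : ST_KAD) (hMN : ST_KMN)
    (hSC : ST_KSC) : ST_KLB2 := by
  intro F _ _ v h2 h3 A₀ B₀ hD₀ x₀ y₀ hg₀
  obtain ⟨u, hu0, huA, huB, hmin, hdl, -⟩ := hMN F v A₀ B₀ hD₀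
  obtain ⟨h6912, h16, h27, h4⟩ := klb_ord_num v h2 h3
  have hg := hSC F A₀ B₀ u x₀ y₀ hu0 hg₀
  have hlogD := klb_log_dsc v hu0 hD₀
  have hD : dsc (u ^ 4 * A₀) (u ^ 6 * B₀) ≠ 0 := by
    rw [klb_dsc]; exact mul_ne_zero (pow_ne_zero _ hu0) hD₀
  have hlq := v.log_q_pos
  -- a potential for the minimal equation suffices
  suffices hkey : ∃ (t : ℝ) (n : ℕ) (U : ℕ → ℝ), 0 ≤ dl v.nr A₀ B₀ ∧ 1 ≤ n ∧
      (∃ a : ℤ, (n : ℝ) * t = a) ∧
      (dl v.nr A₀ B₀ ≠ 0 → n * Real.log v.q ≤ dl v.nr A₀ B₀) ∧ (t ≠ 0 → IsMul v.nr A₀ B₀) ∧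
      (∀ k : ℕ, 1 ≤ k → 4 * U k = U (2 * k) +
        Real.log (v.nr (4 * cu (u ^ 4 * A₀) (u ^ 6 * B₀) (u ^ 2 * x₀ k)))) ∧
      (∃ C : ℝ, ∀ k : ℕ, 1 ≤ k → |U k - klb2_lg v (u ^ 2 * x₀ k)| ≤ C) ∧
      (∀ k : ℕ, 1 ≤ k → U (12 * k) = dl v.nr A₀ B₀ * B2 (k * t) +
        1 / 6 * Real.log (v.nr (dsc (u ^ 4 * A₀) (u ^ 6 * B₀))) +
        klb2_lg v (u ^ 2 * x₀ (12 * k))) by
    obtain ⟨t, n, U, h5, h6, h7, h8, h9, h10, ⟨C, hC⟩, h12⟩ := hkey
    refine ⟨t, n, fun k => U k - 2 * Real.log (v.nr u), fun k => klb2_lg v (u ^ 2 * x₀ (12 * k)),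
      h5, h6, h7, h8, h9, ?_, ?_, ?_, ?_⟩
    · intro k hk
      have h13 := h10 k hk
      have h14 : 4 * cu (u ^ 4 * A₀) (u ^ 6 * B₀) (u ^ 2 * x₀ k) =
          u ^ 6 * (4 * cu A₀ B₀ (x₀ k)) := by
        unfold cu; ring
      have h15 : (4 * cu A₀ B₀ (x₀ k)) ≠ 0 := mul_ne_zero (by norm_num) (klb_cu hg₀ k hk)
      rw [h14, v.nr_mul, v.nr_pow, Real.log_mul (pow_ne_zero _ (v.nr_ne_zero hu0))
        (v.nr_ne_zero h15), Real.log_pow] at h13
      push_cast at h13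
      simp only
      linarith
    · refine ⟨C + |2 * Real.log (v.nr u)| + (klb2_lg v (u ^ 2) + klb2_lg v (u ^ 2)⁻¹),
        fun k hk => ?_⟩
      have h13 := hC k hk
      have h14 := klb2_scale v (u ^ 2) (pow_ne_zero _ hu0) (x₀ k)
      have h15 : U k - 2 * Real.log (v.nr u) - Real.log (max (v.nr (x₀ k)) 1) =
          (U k - klb2_lg v (u ^ 2 * x₀ k)) - 2 * Real.log (v.nr u) +
          (klb2_lg v (u ^ 2 * x₀ k) - klb2_lg v (x₀ k)) := by
        unfold klb2_lg; ring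
      simp only
      rw [h15]
      refine (abs_add_le _ _).trans (add_le_add ((abs_sub _ _).trans (add_le_add h13 le_rfl)) h14)
    · exact klb2_QC (hQC F v _ _ huA huB _ _ hg)
    · intro k hk
      have := h12 k hk
      rw [hlogD] at this
      simp only
      linarith
  set A := u ^ 4 * A₀ with hA
  set B := u ^ 6 * B₀ with hB
  have hAint : v.nr A ≤ 1 := huA
  have hBint : v.nr B ≤ 1 := huB
  -- the discriminant is integral
  have hDint : v.nr (dsc A B) ≤ 1 := by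
    unfold dsc
    refine (v.nr_add_le _ _).trans (max_le ?_ ?_)
    · rw [v.nr_mul, v.nr_pow]
      exact mul_le_one₀ (v.nr_ofNat 4) (pow_nonneg (v.nr_nonneg _) _)
        (pow_le_one₀ (v.nr_nonneg _) hAint)
    · rw [v.nr_mul, v.nr_pow]
      exact mul_le_one₀ (v.nr_ofNat 27) (pow_nonneg (v.nr_nonneg _) _)
        (pow_le_one₀ (v.nr_nonneg _) hBint)
  have hordD : 0 ≤ v.ord (dsc A B) := (v.nr_le_one_iff hD).1 hDint
  obtain ⟨N, hN⟩ : ∃ N : ℕ, v.ord (dsc A B) = N := ⟨(v.ord (dsc A B)).toNat, by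
    rw [Int.toNat_of_nonneg hordD]⟩
  have hdlN : dl v.nr A₀ B₀ = N * Real.log v.q := by
    rw [hdl, v.log_nr hD, hN]; push_cast; ring
  have hlogDN : Real.log (v.nr (dsc A B)) = -(N * Real.log v.q) := by
    rw [v.log_nr hD, hN]; push_cast; ring
  have hdl0 : 0 ≤ dl v.nr A₀ B₀ := by rw [hdlN]; positivity
  -- the part with t = 0
  have hzero : (∃ U : ℕ → ℝ, (∀ k : ℕ, 1 ≤ k → 4 * U k = U (2 * k) +
        Real.log (v.nr (4 * cu A B (u ^ 2 * x₀ k)))) ∧
      (∃ C : ℝ, ∀ k : ℕ, 1 ≤ k → |U k - klb2_lg v (u ^ 2 * x₀ k)| ≤ C) ∧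
      (∀ k : ℕ, 1 ≤ k → U (12 * k) = klb2_lg v (u ^ 2 * x₀ (12 * k)))) →
      ∃ (t : ℝ) (n : ℕ) (U : ℕ → ℝ), 0 ≤ dl v.nr A₀ B₀ ∧ 1 ≤ n ∧
      (∃ a : ℤ, (n : ℝ) * t = a) ∧
      (dl v.nr A₀ B₀ ≠ 0 → n * Real.log v.q ≤ dl v.nr A₀ B₀) ∧ (t ≠ 0 → IsMul v.nr A₀ B₀) ∧
      (∀ k : ℕ, 1 ≤ k → 4 * U k = U (2 * k) +
        Real.log (v.nr (4 * cu A B (u ^ 2 * x₀ k)))) ∧
      (∃ C : ℝ, ∀ k : ℕ, 1 ≤ k → |U k - klb2_lg v (u ^ 2 * x₀ k)| ≤ C) ∧
      (∀ k : ℕ, 1 ≤ k → U (12 * k) = dl v.nr A₀ B₀ * B2 (k * t) +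
        1 / 6 * Real.log (v.nr (dsc A B)) + klb2_lg v (u ^ 2 * x₀ (12 * k))) := by
    rintro ⟨U, hU1, hU2, hU3⟩
    refine ⟨0, 1, U, hdl0, le_rfl, ⟨0, by simp⟩, ?_, fun h => absurd rfl h, hU1, hU2, ?_⟩
    · intro h5
      rw [hdlN] at h5 ⊢
      have hN0 : N ≠ 0 := by rintro rfl; simp at h5
      have hN1 : (1 : ℝ) ≤ N := by exact_mod_cast Nat.one_le_iff_ne_zero.2 hN0
      push_cast
      nlinarith
    · intro k hk
      have h5 := hU3 k hk
      rw [mul_zero, klb_B2_zero, hdlN, hlogDN, h5]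
      ring
  -- good reduction
  have hgood : N = 0 → ∃ U : ℕ → ℝ, (∀ k : ℕ, 1 ≤ k → 4 * U k = U (2 * k) +
        Real.log (v.nr (4 * cu A B (u ^ 2 * x₀ k)))) ∧
      (∃ C : ℝ, ∀ k : ℕ, 1 ≤ k → |U k - klb2_lg v (u ^ 2 * x₀ k)| ≤ C) ∧
      (∀ k : ℕ, 1 ≤ k → U (12 * k) = klb2_lg v (u ^ 2 * x₀ (12 * k))) := by
    intro hN0
    have hD1 : v.nr (dsc A B) = 1 := (v.nr_eq_one_iff hD).2 (by rw [hN, hN0]; rfl)
    obtain ⟨R, hR0, hR, hU1⟩ := hPG F v h2 h3 A B hD (by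
      rw [hD1, v.nr_mul, v.nr_pow]
      exact mul_le_one₀ (v.nr_ofNat 6912) (pow_nonneg (v.nr_nonneg _) _)
        (pow_le_one₀ (v.nr_nonneg _) hAint)) _ _ hg
    have hR1 : R = 1 := by
      rw [hD1, Real.log_one, mul_zero] at hR
      exact Real.eq_one_of_pos_of_log_eq_zero hR0 hR
    subst hR1
    refine ⟨fun k => klb2_lg v (u ^ 2 * x₀ k), hU1, ⟨0, fun k _ => ?_⟩, fun k _ => rfl⟩
    simp
  by_cases hN0 : N = 0
  · exact hzero (hgood hN0)
  by_cases hA1 : v.nr A = 1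
  · -- multiplicative reduction
    have hA0 : A ≠ 0 := by
      intro h; rw [h, v.nr_zero] at hA1; exact zero_ne_one hA1
    have hordA : v.ord A = 0 := (v.nr_eq_one_iff hA0).1 hA1
    have hN1 : 1 ≤ N := Nat.one_le_iff_ne_zero.2 hN0
    have hj : v.ord (6912 * A ^ 3 / dsc A B) = -(N : ℤ) := by
      rw [v.ord_div (mul_ne_zero (by norm_num) (pow_ne_zero _ hA0)) hD,
        v.ord_mul _ _ (by norm_num) (pow_ne_zero _ hA0), v.ord_pow, h6912, hordA, hN]
      simp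
    obtain ⟨r, a, ρ, U, hρ0, hρ, hr, hU1, hU2, -⟩ := hPM F v N hN1 A B hD hj _ _ hg
    have hr0 : r = 0 := by
      rw [v.ord_mul _ _ (by norm_num) hD, h16, hN] at hr
      omega
    subst hr0
    have hρ1 : v.nr ρ = 1 := (v.nr_eq_one_iff hρ0).2 (by rw [hρ]; rfl)
    have hx0 : v.nr (-3 * B / (2 * A)) ≤ 1 := by
      have h2' : v.nr (2 : F) = 1 := (v.nr_eq_one_iff (by norm_num)).2 h2
      have h3' : v.nr (-3 : F) ≤ 1 := by
        rw [v.nr_neg]; exact v.nr_ofNat 3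
      rw [v.nr_div, v.nr_mul (-3) B, v.nr_mul 2 A, h2', hA1, one_mul, div_one]
      exact mul_le_one₀ h3' (v.nr_nonneg _) hBint
    have hmx : ∀ X : F, max (v.nr ((X - -3 * B / (2 * A)) * ρ)) 1 = max (v.nr X) 1 := by
      intro X
      rw [v.nr_mul, hρ1, mul_one]
      by_cases hX : v.nr X ≤ 1
      · rw [max_eq_right hX, max_eq_right]
        exact (v.nr_sub_le _ _).trans (max_le hX hx0)
      · push Not at hX
        rw [sub_eq_add_neg, v.nr_add_eq_left]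
        rw [v.nr_neg]
        exact lt_of_le_of_lt hx0 hX
    have hNR : (0 : ℝ) < N := by exact_mod_cast hN1
    refine ⟨6 * a / N, N, U, hdl0, hN1, ⟨6 * a, by push_cast; field_simp⟩, ?_, ?_, hU2, ?_, ?_⟩
    · intro _; rw [hdlN]
    · intro _
      refine ⟨u, hA1, hBint, ?_⟩
      have e1 : u ^ 12 * (4 * A₀ ^ 3 + 27 * B₀ ^ 2) = dsc A B := by
        rw [hA, hB, klb_dsc]; rfl
      rw [e1, v.nr_lt_one_iff hD, hN]
      exact_mod_cast hN1
    · refine ⟨N * Real.log v.q, fun k hk => ?_⟩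
      rw [hU1 k hk, hmx]
      have h5 : Real.log (max (v.nr (u ^ 2 * x₀ k)) 1) + N * Real.log v.q *
          (B2 (k * (a / (2 * N))) - 1 / 6) - ((0 : ℤ) : ℝ) * Real.log v.q -
          klb2_lg v (u ^ 2 * x₀ k) = N * Real.log v.q * (B2 (k * (a / (2 * N))) - 1 / 6) := by
        unfold klb2_lg; push_cast; ring
      rw [h5, abs_mul, abs_of_nonneg (by positivity : (0 : ℝ) ≤ N * Real.log v.q)]
      have := klb2_B2 (k * ((a : ℝ) / (2 * N)))
      calc (N : ℝ) * Real.log v.q * |B2 (k * ((a : ℝ) / (2 * N))) - 1 / 6| ≤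
          N * Real.log v.q * 1 := mul_le_mul_of_nonneg_left this (by positivity)
        _ = _ := mul_one _
    · intro k hk
      have h5 := hU1 (12 * k) (by omega)
      rw [hmx] at h5
      have e1 : (((12 * k : ℕ) : ℝ) * ((a : ℝ) / (2 * N))) = k * (6 * a / N) := by
        push_cast; field_simp; ring
      rw [e1] at h5
      rw [hdlN, hlogDN, h5]
      unfold klb2_lg
      push_cast
      ring
  · -- additive reduction
    have hA1' : v.nr A < 1 := lt_of_le_of_ne hAint hA1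
    have hDlt : v.nr (dsc A B) < 1 := by
      rw [v.nr_lt_one_iff hD, hN]
      exact_mod_cast Nat.one_le_iff_ne_zero.2 hN0
    have hBlt : v.nr B < 1 := by
      have h27' : v.nr (27 : F) = 1 := (v.nr_eq_one_iff (by norm_num)).2 h27
      have e1 : 27 * B ^ 2 = dsc A B + -(4 * A ^ 3) := by unfold dsc; ring
      have e2 : v.nr (27 * B ^ 2) < 1 := by
        rw [e1]
        refine lt_of_le_of_lt (v.nr_add_le _ _) (max_lt hDlt ?_)
        rw [v.nr_neg, v.nr_mul, v.nr_pow]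
        calc v.nr 4 * v.nr A ^ 3 ≤ 1 * v.nr A ^ 3 :=
              mul_le_mul_of_nonneg_right (v.nr_ofNat 4) (pow_nonneg (v.nr_nonneg _) _)
          _ = v.nr A ^ 3 := one_mul _
          _ < 1 := pow_lt_one₀ (v.nr_nonneg _) hA1' (by norm_num)
      rw [v.nr_mul, h27', one_mul, v.nr_pow] at e2
      by_contra hcon
      push Not at hcon
      exact absurd (one_le_pow₀ hcon (n := 2)) (not_le.2 e2)
    have hx12 := hAD F v h2 h3 A B hD hA1' hBlt hmin _ _ hg
    apply hzero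
    by_cases hj : v.nr (6912 * A ^ 3) ≤ v.nr (dsc A B)
    · obtain ⟨R, hR0, hR, hU1⟩ := hPG F v h2 h3 A B hD hj _ _ hg
      have hlogR : Real.log R ≤ 0 := by
        rw [hR, hlogDN]
        have : 0 ≤ (N : ℝ) * Real.log v.q := by positivity
        linarith
      have hR1 : R ≤ 1 := by
        by_contra hcon
        push Not at hcon
        exact absurd (Real.log_pos hcon) (not_lt.2 hlogR)
      refine ⟨fun k => Real.log (max (v.nr (u ^ 2 * x₀ k)) R), hU1, ⟨-Real.log R, ?_⟩, ?_⟩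
      · intro k hk
        have hpos : 0 < max (v.nr (u ^ 2 * x₀ k)) R := lt_of_lt_of_le hR0 (le_max_right _ _)
        have h5 : Real.log (max (v.nr (u ^ 2 * x₀ k)) R) ≤ klb2_lg v (u ^ 2 * x₀ k) :=
          Real.log_le_log hpos (max_le_max le_rfl hR1)
        have h6 : klb2_lg v (u ^ 2 * x₀ k) + Real.log R ≤
            Real.log (max (v.nr (u ^ 2 * x₀ k)) R) := by
          unfold klb2_lg
          rw [← Real.log_mul (klb2_pos v _).ne' hR0.ne']
          refine Real.log_le_log (mul_pos (klb2_pos v _) hR0) ?_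
          rw [max_mul_of_nonneg _ _ hR0.le, one_mul]
          refine max_le_max ?_ le_rfl
          calc v.nr (u ^ 2 * x₀ k) * R ≤ v.nr (u ^ 2 * x₀ k) * 1 :=
                mul_le_mul_of_nonneg_left hR1 (v.nr_nonneg _)
            _ = _ := mul_one _
        simp only
        rw [abs_le]
        constructor <;> linarith
      · intro k hk
        have h5 : 1 ≤ v.nr (u ^ 2 * x₀ (12 * k)) := hx12 k hk
        unfold klb2_lg
        beta_reduce
        rw [max_eq_left h5, max_eq_left (hR1.trans h5)]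
    · push Not at hj
      have hA0 : A ≠ 0 := by
        intro h
        rw [h] at hj
        simp only [ne_eq, OfNat.ofNat_ne_zero, not_false_eq_true, zero_pow, mul_zero,
          v.nr_zero] at hj
        exact absurd (v.nr_nonneg _) (not_le.2 hj)
      have hne : 6912 * A ^ 3 ≠ 0 := mul_ne_zero (by norm_num) (pow_ne_zero _ hA0)
      have hord : v.ord (6912 * A ^ 3 / dsc A B) < 0 := by
        rw [v.nr_of_ne hne, v.nr_of_ne hD, zpow_lt_zpow_iff_right₀ v.one_lt_q] at hj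
        rw [v.ord_div hne hD]; omega
      obtain ⟨N', hN'⟩ : ∃ N' : ℕ, v.ord (6912 * A ^ 3 / dsc A B) = -(N' : ℤ) :=
        ⟨(-(v.ord (6912 * A ^ 3 / dsc A B))).toNat, by
          rw [Int.toNat_of_nonneg (by omega)]; ring⟩
      have hN1 : 1 ≤ N' := by omega
      obtain ⟨r, a, ρ, U, hρ0, -, -, hU1, hU2, hU4⟩ := hPM F v N' hN1 A B hD hN' _ _ hg
      refine ⟨U, hU2, ⟨(klb2_lg v ρ + klb2_lg v ρ⁻¹ + klb2_lg v (-3 * B / (2 * A))) +
        N' * Real.log v.q + |(r : ℝ) * Real.log v.q|, ?_⟩, ?_⟩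
      · intro k hk
        rw [hU1 k hk]
        have h5 := klb2_affine v (-3 * B / (2 * A)) ρ hρ0 (u ^ 2 * x₀ k)
        have h6 : Real.log (max (v.nr ((u ^ 2 * x₀ k - -3 * B / (2 * A)) * ρ)) 1) +
            N' * Real.log v.q * (B2 (k * (a / (2 * N'))) - 1 / 6) - r * Real.log v.q -
            klb2_lg v (u ^ 2 * x₀ k) =
            (klb2_lg v ((u ^ 2 * x₀ k - -3 * B / (2 * A)) * ρ) - klb2_lg v (u ^ 2 * x₀ k)) +
            N' * Real.log v.q * (B2 (k * (a / (2 * N'))) - 1 / 6) - r * Real.log v.q := by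
          unfold klb2_lg; ring
        rw [h6]
        refine (abs_sub _ _).trans (add_le_add ((abs_add_le _ _).trans (add_le_add h5 ?_)) le_rfl)
        rw [abs_mul, abs_of_nonneg (by positivity : (0 : ℝ) ≤ N' * Real.log v.q)]
        have := klb2_B2 (k * ((a : ℝ) / (2 * N')))
        calc (N' : ℝ) * Real.log v.q * |B2 (k * ((a : ℝ) / (2 * N'))) - 1 / 6| ≤
            N' * Real.log v.q * 1 := mul_le_mul_of_nonneg_left this (by positivity)
          _ = _ := mul_one _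
      · intro k hk
        have h5 := hx12 k hk
        rw [hU4 h2 h3 hA1' (12 * k) (by omega) h5]
        unfold klb2_lg
        rw [max_eq_left h5]

end Pool.Agent.Helper92.LV
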